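import Mathlib

set_option autoImplicit false

namespace Pool.Agent.H.MP_44afb3_an

open TopologicalSpace

/-- uncountable discrete space -/
def D : Type := ℝ

instance : TopologicalSpace D := ⊥
instance : DiscreteTopology D := ⟨rfl⟩
instance : Inhabited D := ⟨(0 : ℝ)⟩

abbrev B : Type := Heyting.Regular (Opens (ℕ → D))

theorem B_lub (S : Set B) : ∃ a, IsLUB S a :=
  ⟨_, Heyting.Regular.gi.isLUB_of_u_image (isLUB_sSup _)⟩

theorem B_nontriv : (⊤ : B) ≠ ⊥ := by
  intro h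
  have h1 : ((⊤ : B) : Opens (ℕ → D)) = ((⊥ : B) : Opens (ℕ → D)) := by rw [h]
  have h2 : (default : ℕ → D) ∈ ((⊤ : B) : Opens (ℕ → D)) := by simp
  rw [h1] at h2
  simp at h2

def cyl (n : ℕ) (a : D) : Opens (ℕ → D) :=
  ⟨{y | y n = a}, (isOpen_discrete ({a} : Set D)).preimage (continuous_apply (A := fun _ : ℕ => D) n)⟩

def cyl' (n : ℕ) (a : D) : Opens (ℕ → D) :=
  ⟨{y | y n ≠ a}, (isOpen_discrete ({a}ᶜ : Set D)).preimage (continuous_apply (A := fun _ : ℕ => D) n)⟩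

theorem cyl_compl (n : ℕ) (a : D) : IsCompl (cyl n a) (cyl' n a) := by
  constructor
  · rw [disjoint_iff]
    ext y
    simp [cyl, cyl']
  · rw [codisjoint_iff]
    ext y
    simp [cyl, cyl', em]

def u (n : ℕ) (a : D) : B :=
  ⟨cyl n a, by
    show (cyl n a)ᶜᶜ = _
    rw [(cyl_compl n a).compl_eq, (cyl_compl n a).symm.compl_eq]⟩

theorem B_split (b : B) (hb : b ≠ ⊥) : ∃ v : ℝ → B, (∀ a a', a ≠ a' → v a ⊓ v a' = ⊥) ∧
    (∀ c, (∀ a, v a ≤ c) → c = ⊤) ∧ ∀ a, b ⊓ v a ≠ ⊥ := by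
  have hne : ((b : Opens (ℕ → D)) : Set (ℕ → D)).Nonempty := by
    rw [Set.nonempty_iff_ne_empty]
    intro h
    apply hb
    apply Heyting.Regular.coe_injective
    ext y
    simp [h]
  obtain ⟨x, hx⟩ := hne
  obtain ⟨I, w, hw, hI⟩ := isOpen_pi_iff.1 (b : Opens (ℕ → D)).isOpen x hx
  obtain ⟨n, hn⟩ := I.exists_notMem
  refine ⟨fun a => u n a, ?_, ?_, ?_⟩
  · intro a a' h
    apply Heyting.Regular.coe_injective
    ext y
    have : ((u n a ⊓ u n a' : B) : Opens (ℕ → D)) = cyl n a ⊓ cyl n a' := rfl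
    simp only [this]
    simp only [cyl, Heyting.Regular.coe_bot, Opens.coe_inf, Opens.coe_mk, Set.mem_inter_iff,
      Opens.coe_bot, Set.mem_empty_iff_false, iff_false]
    rintro ⟨h1, h2⟩
    exact h (Eq.trans (Eq.symm h1) h2)
  · intro c hc
    apply Heyting.Regular.coe_injective
    ext y
    simp only [Heyting.Regular.coe_top, Opens.coe_top, Set.mem_univ, iff_true]
    have h1 : (cyl n (y n)) ≤ (c : Opens (ℕ → D)) := hc (y n)
    exact h1 (show y n = y n from rfl)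
  · intro a h
    have h1 : ((b ⊓ u n a : B) : Opens (ℕ → D)) = ((⊥ : B) : Opens (ℕ → D)) := by rw [h]
    have h2 : Function.update x n a ∈ ((b ⊓ u n a : B) : Opens (ℕ → D)) := by
      refine ⟨hI ?_, ?_⟩
      · intro i hi
        have : i ≠ n := fun e => hn (e ▸ hi)
        rw [Function.update_of_ne this]
        exact (hw i hi).2
      · show Function.update x n a n = a
        simp
    rw [h1] at h2
    simp at h2

theorem exists_B : ∃ (A : Type) (_ : BooleanAlgebra A), (⊤ : A) ≠ ⊥ ∧ (∀ S : Set A, ∃ a, IsLUB S a) ∧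
    ∀ b : A, b ≠ ⊥ → ∃ v : ℝ → A, (∀ a a', a ≠ a' → v a ⊓ v a' = ⊥) ∧
      (∀ c, (∀ a, v a ≤ c) → c = ⊤) ∧ ∀ a, b ⊓ v a ≠ ⊥ :=
  ⟨B, inferInstance, B_nontriv, B_lub, B_split⟩

theorem stone (A : Type) [BooleanAlgebra A] : ∃ (Ω : Type) (r : A → Set Ω),
    (∀ a b, r (a ⊓ b) = r a ∩ r b) ∧ (∀ a b, r (a ⊔ b) = r a ∪ r b) ∧ r ⊥ = ∅ ∧ r ⊤ = Set.univ ∧
    ∀ a b, r a ⊆ r b → a ≤ b := by
  refine ⟨{I : Order.Ideal A // I.IsPrime}, fun b => {I | b ∉ I.1}, ?_, ?_, ?_, ?_, ?_⟩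
  · intro a b
    ext I
    have := I.2
    simp only [Set.mem_ofPred_eq, Set.mem_inter_iff]
    constructor
    · intro h
      exact ⟨fun h1 => h (I.1.lower inf_le_left h1), fun h1 => h (I.1.lower inf_le_right h1)⟩
    · rintro ⟨h1, h2⟩ h
      rcases I.2.mem_or_mem h with h | h
      · exact h1 h
      · exact h2 h
  · intro a b
    ext I
    simp only [Set.mem_ofPred_eq, Set.mem_union, Order.Ideal.sup_mem_iff]
    tauto
  · ext I
    simp
  · ext I
    have := I.2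
    simp only [Set.mem_ofPred_eq, Set.mem_univ, iff_true]
    exact Order.Ideal.IsProper.top_notMem I.2.toIsProper
  · intro a b h
    by_contra hab
    obtain ⟨J, hJ, h1, h2⟩ := DistribLattice.prime_ideal_of_disjoint_filter_ideal
      (F := Order.PFilter.principal a) (I := Order.Ideal.principal b) (by
        rw [Set.disjoint_left]
        intro x hx hx'
        have e1 : a ≤ x := Order.PFilter.mem_principal.1 hx
        have e2 : x ≤ b := Order.Ideal.mem_principal.1 hx'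
        exact hab (e1.trans e2))
    have ha : a ∉ J := Set.disjoint_left.1 h2 (Order.PFilter.mem_principal.2 le_rfl)
    exact h (a := ⟨J, hJ⟩) ha (h1 (Order.Ideal.mem_principal.2 le_rfl))

/-- coordinate subspace -/
def M {Ω : Type} (s : Set Ω) : Submodule ℂ (lp (fun _ : Ω => ℂ) 2) where
  carrier := {f | ∀ i, i ∉ s → f i = 0}
  add_mem' := by
    intro f g hf hg i hi
    simp [hf i hi, hg i hi]
  zero_mem' := by intro i _; simp
  smul_mem' := by
    intro c f hf i hi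
    simp [hf i hi]

theorem mem_M {Ω : Type} (s : Set Ω) (f : lp (fun _ : Ω => ℂ) 2) :
    f ∈ M s ↔ ∀ i, i ∉ s → f i = 0 := Iff.rfl

theorem M_closed {Ω : Type} (s : Set Ω) : IsClosed (M s : Set (lp (fun _ : Ω => ℂ) 2)) := by
  have : (M s : Set (lp (fun _ : Ω => ℂ) 2)) =
      ⋂ i, ⋂ (_ : i ∉ s), (lp.evalCLM ℂ (fun _ : Ω => ℂ) 2 i) ⁻¹' {0} := by
    ext f
    simp only [Set.mem_iInter]
    rfl
  rw [this]
  exact isClosed_iInter fun i => isClosed_iInter fun _ =>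
    isClosed_singleton.preimage (lp.evalCLM ℂ (fun _ : Ω => ℂ) 2 i).continuous

theorem M_inter {Ω : Type} (s t : Set Ω) : M (s ∩ t) = M s ⊓ M t := by
  ext f
  simp only [Submodule.mem_inf, mem_M, Set.mem_inter_iff]
  constructor
  · intro h
    exact ⟨fun i hi => h i fun h' => hi h'.1, fun i hi => h i fun h' => hi h'.2⟩
  · rintro ⟨h1, h2⟩ i hi
    by_cases hs : i ∈ s
    · exact h2 i fun ht => hi ⟨hs, ht⟩
    · exact h1 i hs

theorem M_mono {Ω : Type} {s t : Set Ω} (h : s ⊆ t) : M s ≤ M t :=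
  fun _ hf i hi => hf i fun h' => hi (h h')

theorem M_union {Ω : Type} (s t : Set Ω) : M (s ∪ t) = (M s ⊔ M t).topologicalClosure := by
  classical
  apply le_antisymm
  · refine le_trans ?_ (Submodule.le_topologicalClosure _)
    intro f hf
    let g : lp (fun _ : Ω => ℂ) 2 := ⟨fun i => if i ∈ s then f i else 0,
      (lp.memℓp f).mono' fun i => by split_ifs <;> simp⟩
    have hg : ∀ i, g i = if i ∈ s then f i else 0 := fun _ => rfl
    rw [Submodule.mem_sup]
    refine ⟨g, fun i hi => by simp [hg, hi], f - g, fun i hi => ?_, by simp⟩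
    by_cases hs : i ∈ s
    · simp [hg, hs]
    · have := hf i (by simp [hs, hi])
      simp [hg, hs, this]
  · apply Submodule.topologicalClosure_minimal _ _ (M_closed _)
    exact sup_le (M_mono Set.subset_union_left) (M_mono Set.subset_union_right)

theorem M_empty {Ω : Type} : M (∅ : Set Ω) = ⊥ := by
  rw [eq_bot_iff]
  intro f hf
  rw [Submodule.mem_bot]
  ext i
  simpa using hf i (by simp)

theorem M_univ {Ω : Type} : M (Set.univ : Set Ω) = ⊤ := by
  rw [eq_top_iff]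
  intro f _ i hi
  simp at hi

theorem M_le {Ω : Type} {s t : Set Ω} (h : M s ≤ M t) : s ⊆ t := by
  classical
  intro i hi
  by_contra ht
  have h1 : lp.single 2 i (1 : ℂ) ∈ M s := by
    intro j hj
    exact lp.single_apply_ne 2 i _ (fun e => hj (e ▸ hi))
  have := h h1 i ht
  rw [lp.single_apply_self] at this
  exact one_ne_zero this

theorem no_iso {B : Type} [BooleanAlgebra B] (B_nontriv : (⊤ : B) ≠ ⊥)
    (B_split : ∀ b : B, b ≠ ⊥ → ∃ v : ℝ → B, (∀ a a', a ≠ a' → v a ⊓ v a' = ⊥) ∧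
      (∀ c, (∀ a, v a ≤ c) → c = ⊤) ∧ ∀ a, b ⊓ v a ≠ ⊥) {K : Type*} [NormedAddCommGroup K] [NormedSpace ℂ K] (𝒜 : Set (K →L[ℂ] K))
    (F : Set (Submodule ℂ K))
    (hF : ∀ N, N ∈ F ↔ IsClosed (N : Set K) ∧ ∀ T ∈ 𝒜, ∀ x ∈ N, T x ∈ N)
    (ψ : B → Submodule ℂ K) (h1 : ∀ b, ψ b ∈ F) (h2 : ∀ N ∈ F, ∃ b, ψ b = N)
    (h3 : Function.Injective ψ) (h4 : ∀ a b, ψ (a ⊓ b) = ψ a ⊓ ψ b) : False := by
  have hle : ∀ a b, ψ a ≤ ψ b ↔ a ≤ b := by
    intro a b
    rw [← inf_eq_left, ← h4, h3.eq_iff, inf_eq_left]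
  have htop : ψ ⊤ = ⊤ := by
    obtain ⟨t, ht⟩ := h2 ⊤ ((hF _).2 ⟨by simp, by simp⟩)
    rw [eq_top_iff, ← ht, hle]
    exact le_top
  have hbot : ψ ⊥ = ⊥ := by
    obtain ⟨t, ht⟩ := h2 ⊥ ((hF _).2 ⟨by simp, by simp⟩)
    rw [eq_bot_iff, ← ht, hle]
    exact bot_le
  have hx : ∃ x : K, x ≠ 0 := by
    by_contra h
    push Not at h
    apply B_nontriv
    apply h3
    rw [htop, hbot, eq_bot_iff]
    intro x _
    simp [h x]
  obtain ⟨x, hx⟩ := hx
  obtain ⟨b, hb⟩ := h2 (sInf {N | N ∈ F ∧ x ∈ N}) ((hF _).2 ⟨by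
    rw [Submodule.coe_sInf]
    exact isClosed_biInter fun N hN => ((hF N).1 hN.1).1, by
    intro T hT y hy
    rw [Submodule.mem_sInf] at hy ⊢
    intro N hN
    exact ((hF N).1 hN.1).2 T hT y (hy N hN)⟩)
  have hb0 : b ≠ ⊥ := by
    intro e
    have : x ∈ ψ b := by
      rw [hb, Submodule.mem_sInf]
      exact fun N hN => hN.2
    rw [e, hbot] at this
    exact hx this
  obtain ⟨v, hv1, hv2, hv3⟩ := B_split b hb0
  obtain ⟨c, hc⟩ := h2 (⨆ a, ψ (v a)).topologicalClosure ((hF _).2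
    ⟨Submodule.isClosed_topologicalClosure _, by
    intro T hT y hy
    have e : Set.MapsTo T (⨆ a, ψ (v a) : Submodule ℂ K) (⨆ a, ψ (v a) : Submodule ℂ K) := by
      have : (⨆ a, ψ (v a) : Submodule ℂ K) ≤ (⨆ a, ψ (v a) : Submodule ℂ K).comap T.toLinearMap := by
        refine iSup_le fun a z hz => ?_
        exact le_iSup (fun a => ψ (v a)) a (((hF _).1 (h1 (v a))).2 T hT z hz)
      exact fun z hz => this hz
    exact e.closure T.continuous hy⟩)
  have hc1 : c = ⊤ := hv2 c fun a => by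
    rw [← hle, hc]
    exact (le_iSup (fun a => ψ (v a)) a).trans (Submodule.le_topologicalClosure _)
  have hx1 : x ∈ closure ((⨆ a, ψ (v a) : Submodule ℂ K) : Set K) := by
    have : x ∈ ψ c := by rw [hc1, htop]; trivial
    rw [hc] at this
    exact this
  obtain ⟨y, hy, hy'⟩ := mem_closure_iff_seq_limit.1 hx1
  choose s hs using fun n => Submodule.mem_iSup_iff_exists_finset.1 (hy n)
  have hC : (⋃ n, (s n : Set ℝ)).Countable :=
    Set.countable_iUnion fun n => (s n).countable_toSet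
  have : ∃ a, a ∉ ⋃ n, (s n : Set ℝ) := by
    by_contra h
    push Not at h
    exact Cardinal.not_countable_real (hC.mono fun a _ => h a)
  obtain ⟨a, ha⟩ := this
  have hx2 : x ∈ ψ (v a)ᶜ := by
    refine ((hF _).1 (h1 _)).1.mem_of_tendsto hy' (Filter.Eventually.of_forall fun n => ?_)
    have : (⨆ i ∈ s n, ψ (v i)) ≤ ψ (v a)ᶜ := by
      refine iSup₂_le fun i hi => ?_
      rw [hle, le_compl_iff_disjoint_right, disjoint_iff]
      apply hv1
      rintro rfl
      exact ha (Set.mem_iUnion.2 ⟨n, hi⟩)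
    exact this (hs n)
  have : b ≤ (v a)ᶜ := by
    rw [← hle, hb]
    exact sInf_le ⟨h1 _, hx2⟩
  rw [le_compl_iff_disjoint_right, disjoint_iff] at this
  exact hv3 a this

end Pool.Agent.H.MP_44afb3_an
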